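import Pool.Agent.HIP.Stmts

/-!
# HIP, row NRM: common zeros of an irreducible polynomial and a polynomial of smaller degree
-/

set_option autoImplicit false

namespace Pool.Agent.HIP.H10

open Polynomial
open Pool.Agent.HIP

theorem nrm_det {A : Type} [CommRing A] {k : ℕ} (N : Matrix (Fin k) (Fin k) A[X]) (L : ℕ)
    (h : ∀ i j, (N i j).natDegree ≤ L) : N.det.natDegree ≤ k * L := by
  rw [Matrix.det_apply]
  apply natDegree_sum_le_of_forall_le
  intro σ _
  have h1 : (∏ i, N (σ i) i).natDegree ≤ k * L := by
    refine (natDegree_prod_le _ _).trans ?_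
    refine (Finset.sum_le_sum fun i _ => h (σ i) i).trans ?_
    rw [Finset.sum_const, Finset.card_univ, Fintype.card_fin, smul_eq_mul]
  rcases Int.units_eq_one_or (Equiv.Perm.sign σ) with hs | hs
  · rw [hs, one_smul]
    exact h1
  · rw [hs, Units.neg_smul, one_smul, natDegree_neg]
    exact h1

theorem nrm : NrmStmt := by
  classical
  intro A _ _ g hg hirr M
  obtain ⟨G, hG⟩ : ∃ G : ℕ, ∀ j, (g.coeff j).natDegree ≤ G := by
    refine ⟨(Finset.range (g.natDegree + 1)).sup fun j => (g.coeff j).natDegree, fun j => ?_⟩
    by_cases hj : j ≤ g.natDegree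
    · exact Finset.le_sup (f := fun j => (g.coeff j).natDegree)
        (Finset.mem_range.2 (Nat.lt_succ_of_le hj))
    · rw [coeff_eq_zero_of_natDegree_lt (not_le.1 hj), natDegree_zero]
      exact Nat.zero_le _
  refine ⟨(g.natDegree + g.natDegree) * (G + M), ?_⟩
  intro h hh hdeg hM S hS
  have hφ : Function.Injective (algebraMap A[X] (FractionRing A[X])) :=
    IsFractionRing.injective _ _
  -- the resultant is not zero
  have hco : IsCoprime (g.map (algebraMap A[X] (FractionRing A[X])))
      (h.map (algebraMap A[X] (FractionRing A[X]))) := by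
    rw [hirr.coprime_iff_not_dvd]
    intro hd
    have h1 : h.map (algebraMap A[X] (FractionRing A[X])) ≠ 0 := by
      rwa [Ne, Polynomial.map_eq_zero_iff hφ]
    have h2 := natDegree_le_of_dvd hd h1
    rw [natDegree_map_eq_of_injective hφ, natDegree_map_eq_of_injective hφ] at h2
    omega
  have hres : resultant g h ≠ 0 := by
    intro h0
    apply resultant_ne_zero _ _ hco
    rw [natDegree_map_eq_of_injective hφ, natDegree_map_eq_of_injective hφ,
      resultant_map_map, h0, map_zero]
  have hbd : (resultant g h).natDegree ≤ (g.natDegree + h.natDegree) * (G + M) := by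
    apply nrm_det
    intro i j
    rw [sylvester, Matrix.of_apply]
    induction j using Fin.addCases with
    | left j =>
      rw [Fin.addCases_left]
      split_ifs
      · exact (hM _).trans (Nat.le_add_left _ _)
      · rw [natDegree_zero]
        exact Nat.zero_le _
    | right j =>
      rw [Fin.addCases_right]
      split_ifs
      · exact (hG _).trans (Nat.le_add_right _ _)
      · rw [natDegree_zero]
        exact Nat.zero_le _
  obtain ⟨p, q, -, -, hpq⟩ := exists_mul_add_mul_eq_C_resultant g h le_rfl le_rfl
    (Or.inl (by omega))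
  have hsub : S ⊆ (resultant g h).roots.toFinset := by
    intro t ht
    rw [Multiset.mem_toFinset, mem_roots hres, IsRoot.def]
    obtain ⟨y, hy1, hy2⟩ := hS t ht
    have h3 : evalEval t y (g * p + h * q) = evalEval t y (C (resultant g h)) := by rw [hpq]
    rw [evalEval_add, evalEval_mul, evalEval_mul, hy1, hy2, zero_mul, zero_mul, add_zero,
      evalEval_C] at h3
    exact h3.symm
  calc S.card ≤ (resultant g h).roots.toFinset.card := Finset.card_le_card hsub
    _ ≤ Multiset.card (resultant g h).roots := Multiset.toFinset_card_le _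
    _ ≤ (resultant g h).natDegree := card_roots' _
    _ ≤ (g.natDegree + h.natDegree) * (G + M) := hbd
    _ ≤ (g.natDegree + g.natDegree) * (G + M) := Nat.mul_le_mul_right _ (by omega)

end Pool.Agent.HIP.H10
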